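import Pool.Agent.L0h82.PS.Main

/-! # MP_8f0578_co: invariant consistent path systems on Cayley graphs

Every `G`-invariant consistent path system on a Cayley graph of a finite group `G` satisfies
`Δ ≤ 4 √|G|`; so Q1 has a negative answer. -/

set_option autoImplicit false

open Finset Filter

namespace Pool.Agent.Results.MP_8f0578_co.SquareRootBound

universe u

/-- Adjacency in the Cayley graph `Γ(G, S)`: the edges are `{x, x s}` with `s ∈ S`. -/
def CayleyAdj {G : Type u} [Group G] (S : Set G) (x y : G) : Prop := x ≠ y ∧ x⁻¹ * y ∈ S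

/-- `P` is a consistent path system in the graph with vertex set `V` and adjacency `adj`: `P u v` is
the list of the vertices of a simple path from `u` to `v`, `P v u` is the reversed path, and if `a`,
`b` lie (in this order) on a path of the system, then the portion of the path from `a` to `b` is
`P a b`. -/
structure IsPathSystem {V : Type u} (adj : V → V → Prop) (P : V → V → List V) : Prop where
  head : ∀ u v, (P u v).head? = some u
  last : ∀ u v, (P u v).getLast? = some v
  nodup : ∀ u v, (P u v).Nodup
  chain : ∀ u v, (P u v).IsChain adj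
  symm : ∀ u v, P v u = (P u v).reverse
  portion : ∀ u v a b m, m <:+: P u v → m.head? = some a → m.getLast? = some b → P a b = m

/-- `P` is invariant under left translations. -/
def Invariant {G : Type u} [Group G] (P : G → G → List G) : Prop :=
  ∀ g x y, P (g * x) (g * y) = (P x y).map (fun z => g * z)

/-- `ρ` is a metric on `V`. -/
structure IsMetric {V : Type u} (ρ : V → V → ℝ) : Prop where
  eq_zero : ∀ x y, ρ x y = 0 ↔ x = y
  symm : ∀ x y, ρ x y = ρ y x
  triangle : ∀ x y z, ρ x z ≤ ρ x y + ρ y z

/-- The `ρ`-length of a path given by its list of vertices. -/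
def pathLength {V : Type u} (ρ : V → V → ℝ) : List V → ℝ
  | [] => 0
  | [_] => 0
  | a :: b :: l => ρ a b + pathLength ρ (b :: l)

/-- `P` is `α`-metric. -/
def AlphaMetric {V : Type u} (P : V → V → List V) (α : ℝ) : Prop :=
  ∃ ρ : V → V → ℝ, IsMetric ρ ∧ ∀ u v, pathLength ρ (P u v) ≤ α * ρ u v

/-- `Δ(P) = inf {α ≥ 1 : P is α-metric}`. -/
noncomputable def Delta {V : Type u} (P : V → V → List V) : ℝ :=
  sInf {α : ℝ | 1 ≤ α ∧ AlphaMetric P α}

/-- `P` is a `G`-invariant consistent path system in the Cayley graph `Γ(G, S)`, where `S = S⁻¹`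
generates `G`. -/
structure InvariantSystem {G : Type u} [Group G] (S : Set G) (P : G → G → List G) : Prop where
  inv_mem : ∀ s ∈ S, s⁻¹ ∈ S
  generates : Subgroup.closure S = ⊤
  system : IsPathSystem (CayleyAdj S) P
  invariant : Invariant P

section Bridge

variable {G : Type u} [Group G] {S : Set G} {P : G → G → List G} (h : InvariantSystem S P)

include h

theorem pos (g : G) : 0 < (P 1 g).length := by
  have h1 := h.system.head 1 g
  rcases hl : P 1 g with _ | ⟨a, l⟩
  · rw [hl] at h1
    simp at h1
  · simp

theorem get (g : G) {i : ℕ} (hi : i ≤ (P 1 g).length - 1) :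
    (P 1 g)[i]? = some ((P 1 g).getD i 1) := by
  have hp := pos h g
  have hi' : i < (P 1 g).length := by omega
  rw [List.getD_eq_getElem?_getD, List.getElem?_eq_getElem hi']
  rfl

theorem portion_eq (g : G) {i j : ℕ} (hij : i ≤ j) (hj : j ≤ (P 1 g).length - 1) :
    (P 1 (((P 1 g).getD i 1)⁻¹ * (P 1 g).getD j 1)).map (fun z => (P 1 g).getD i 1 * z) =
      ((P 1 g).drop i).take (j - i + 1) := by
  have hp := pos h g
  have h1 := get h g (i := i) (by omega)
  have h2 := get h g hj
  set l := P 1 g with hl
  set a := l.getD i 1 with ha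
  set b := l.getD j 1 with hb
  have hlen : ((l.drop i).take (j - i + 1)).length = j - i + 1 := by
    rw [List.length_take, List.length_drop]
    omega
  have h3 : P a b = (l.drop i).take (j - i + 1) := by
    apply h.system.portion 1 g
    · exact (List.take_prefix _ _).isInfix.trans (List.drop_suffix _ _).isInfix
    · rw [List.head?_eq_getElem?, List.getElem?_take_of_lt (by omega), List.getElem?_drop,
        add_zero, h1]
    · rw [List.getLast?_eq_getElem?, hlen, Nat.add_sub_cancel,
        List.getElem?_take_of_lt (by omega), List.getElem?_drop,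
        show i + (j - i) = j by omega, h2]
  rw [← h3]
  have h4 := h.invariant a 1 (a⁻¹ * b)
  rw [mul_one, mul_inv_cancel_left] at h4
  exact h4.symm

theorem inverse_eq (g : G) : (P 1 g⁻¹).map (fun z => g * z) = (P 1 g).reverse := by
  have h4 := h.invariant g 1 g⁻¹
  rw [mul_one, mul_inv_cancel] at h4
  rw [← h4, h.system.symm 1 g]

/-- the abstract system of the paths starting at `1` -/
def toSys : Pool.Agent.L0h82.PS.Sys G where
  len g := (P 1 g).length - 1
  x g i := (P 1 g).getD i 1
  x0 g := by
    have h1 := h.system.head 1 g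
    rw [List.head?_eq_getElem?] at h1
    rw [List.getD_eq_getElem?_getD, h1]
    rfl
  xl g := by
    have h1 := h.system.last 1 g
    rw [List.getLast?_eq_getElem?] at h1
    rw [List.getD_eq_getElem?_getD, h1]
    rfl
  inj g i j hi hj e := by
    have hp := pos h g
    have h1 := get h g hi
    have h2 := get h g hj
    rw [e, ← h2] at h1
    exact (List.getElem?_inj (by omega) (h.system.nodup 1 g)).1 h1
  por g i j hij hj := by
    have hp := pos h g
    have h1 := congrArg List.length (portion_eq h g hij hj)
    rw [List.length_map, List.length_take, List.length_drop] at h1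
    omega
  por' g i j k hij hj hk := by
    have hp := pos h g
    have h0 := portion_eq h g hij hj
    have h1 := congrArg List.length h0
    rw [List.length_map, List.length_take, List.length_drop] at h1
    have h2 := congrArg (fun l : List G => l[k]?) h0
    simp only [List.getElem?_map] at h2
    rw [List.getElem?_take_of_lt (by omega), List.getElem?_drop, get h _ (by omega),
      get h g (i := i + k) (by omega)] at h2
    simp only [Option.map_some, Option.some.injEq] at h2
    rw [← h2]
    group
  inv g := by
    have h1 := congrArg List.length (inverse_eq h g)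
    rw [List.length_map, List.length_reverse] at h1
    simp only [h1]
  inv' g k hk := by
    have hp := pos h g
    have h0 := inverse_eq h g
    have h1 := congrArg List.length h0
    rw [List.length_map, List.length_reverse] at h1
    have h2 := congrArg (fun l : List G => l[k]?) h0
    simp only [List.getElem?_map] at h2
    rw [List.getElem?_reverse (by omega), get h _ (by omega),
      show (P 1 g).length - 1 - k = (P 1 g).length - 1 - k from rfl,
      get h g (i := (P 1 g).length - 1 - k) (by omega)] at h2
    simp only [Option.map_some, Option.some.injEq] at h2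
    rw [← h2]
    group

end Bridge

theorem pathLength_map {G : Type u} [Group G] (ρ : G → G → ℝ) (g : G)
    (hρ : ∀ x y, ρ (g * x) (g * y) = ρ x y) (l : List G) :
    pathLength ρ (l.map (fun z => g * z)) = pathLength ρ l := by
  induction l with
  | nil => rfl
  | cons a l ih =>
    cases l with
    | nil => rfl
    | cons b l =>
      change ρ (g * a) (g * b) + pathLength ρ ((b :: l).map fun z => g * z) = _
      rw [ih, hρ]
      rfl

theorem pathLength_eq {V : Type u} (ρ : V → V → ℝ) (d : V) (l : List V) :
    pathLength ρ l = ∑ i ∈ range (l.length - 1), ρ (l.getD i d) (l.getD (i + 1) d) := by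
  induction l with
  | nil => rfl
  | cons a l ih =>
    cases l with
    | nil => simp [pathLength]
    | cons b l =>
      change ρ a b + pathLength ρ (b :: l) = _
      rw [ih]
      simp only [List.length_cons, Nat.add_sub_cancel]
      rw [Finset.sum_range_succ', add_comm]
      congr 1

theorem bound (G : Type u) [Group G] [Finite G] (S : Set G) (P : G → G → List G)
    (h : InvariantSystem S P) : AlphaMetric P (4 * √(Nat.card G : ℝ)) := by
  classical
  have := Fintype.ofFinite G
  obtain ⟨lam, h0, hinv, hmul, hsum⟩ := (toSys h).core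
  refine ⟨fun x y => lam (x⁻¹ * y), ⟨?_, ?_, ?_⟩, ?_⟩
  · intro x y
    rw [h0, inv_mul_eq_one]
  · intro x y
    rw [← hinv (x⁻¹ * y), mul_inv_rev, inv_inv]
  · intro x y z
    have := hmul (x⁻¹ * y) (y⁻¹ * z)
    rwa [show x⁻¹ * y * (y⁻¹ * z) = x⁻¹ * z by group] at this
  · intro u v
    have h1 := h.invariant u 1 (u⁻¹ * v)
    rw [mul_one, mul_inv_cancel_left] at h1
    rw [h1, pathLength_map _ u (fun x y => by
      rw [show (u * x)⁻¹ * (u * y) = x⁻¹ * y by group]), pathLength_eq _ 1, Nat.card_eq_fintype_card]
    exact hsum (u⁻¹ * v)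

theorem delta_le (G : Type u) [Group G] [Finite G] (S : Set G) (P : G → G → List G)
    (h : InvariantSystem S P) : Delta P ≤ 4 * √(Nat.card G : ℝ) := by
  have h1 : (1 : ℝ) ≤ √(Nat.card G : ℝ) := by
    rw [Real.one_le_sqrt]
    exact_mod_cast Nat.card_pos
  apply csInf_le
  · exact ⟨1, fun α hα => hα.1⟩
  · exact ⟨by linarith, bound G S P h⟩

/-- **Q1 is false.** (1) Every invariant consistent path system on a Cayley graph of a finite group
`G` has `Δ ≤ 4 √|G|`. (2) So there is no sequence of such systems with `|Gₙ| → ∞` and
`Δ(Pₙ) / √|Gₙ| → ∞`. -/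
theorem result :
    (∀ (G : Type u) [Group G] [Finite G] (S : Set G) (P : G → G → List G), InvariantSystem S P →
      Delta P ≤ 4 * √(Nat.card G : ℝ)) ∧
    ¬ ∃ (G : ℕ → Type u) (_ : ∀ n, Group (G n)) (_ : ∀ n, Finite (G n)) (S : ∀ n, Set (G n))
        (P : ∀ n, G n → G n → List (G n)),
      (∀ n, InvariantSystem (S n) (P n)) ∧ Tendsto (fun n => Nat.card (G n)) atTop atTop ∧
        Tendsto (fun n => Delta (P n) / √(Nat.card (G n) : ℝ)) atTop atTop := by
  refine ⟨fun G _ _ S P h => delta_le G S P h, ?_⟩
  rintro ⟨G, iG, iF, S, P, h, -, ht⟩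
  obtain ⟨n, hn⟩ := (ht.eventually_gt_atTop 4).exists
  have h1 := delta_le (G n) (S n) (P n) (h n)
  have h2 : (0 : ℝ) < √(Nat.card (G n) : ℝ) := by
    rw [Real.sqrt_pos]
    exact_mod_cast Nat.card_pos
  rw [lt_div_iff₀ h2] at hn
  linarith

end Pool.Agent.Results.MP_8f0578_co.SquareRootBound
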